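import Pool.Agent.Helper96.VN.Kim
import Pool.Agent.Helper88.SQ.Lef
import Pool.Agent.Helper88.SQ.Transfer

/-!
# Products with an arbitrary factor
-/

set_option autoImplicit false
set_option linter.unusedVariables false

open CategoryTheory CategoryTheory.Limits Pool.Agent.Helper81.Smash

namespace Pool.Agent.Helper88.SP

universe u v w

variable {𝒱 : Type u} [Category.{v} 𝒱] [HasFiniteProducts 𝒱] {S : HomCycles.{u, v, w} 𝒱}


variable {K : PushForward S}

/-- surfaces -/
lemma surface (hV : K.RVarieties) (hP : PicardClasses S) {X : 𝒱} (hX : S.dim X = 2) : Voevodsky S X 1 := fun _ hz hz' =>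
  divisor_nil hV hP ((mem_cycles_iff (by omega)).mp hz) hz'

lemma curve (hK : K.RStandard) (hP : PicardClasses S) {C : 𝒱} (hC : S.dim C = 1) : Voevodsky S C 1 :=
  (of_prod hK (surface hK.varieties hP (X := C ⨯ C) (by rw [S.dim_prod]; omega))).1

/-- **1-cycles on `C × Y`, `Y` dominated by a product of curves** -/
theorem overCurves_of_dominated (hK : K.RStandard) (hO : K.CurvesOdd) (hP : PicardClasses S) {Y : 𝒱}
    (hY : K.DominatedByCurves Y) : PushForward.OverCurves S Y := by
  intro D hD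
  obtain ⟨n, C, hC, f, r, c, hr, hc, hfc⟩ := hY
  have hF := hK.isFunctor
  have h1 : Voevodsky S (D ⨯ ∏ᶜ C) 1 := by
    refine many hK hO n C D (curve hK hP hD) (fun i => ?_) fun i j _ => ?_
    · exact surface hK.varieties hP (by rw [S.dim_prod, hD, hC])
    · exact surface hK.varieties hP (by rw [S.dim_prod, hC, hC])
  have h2 : Voevodsky S ((∏ᶜ C) ⨯ D) 1 := voev_iso hF (swIso _ _) h1
  refine dominated hK (f := prod.map f (𝟙 D)) ⟨r, S.pull prod.fst c, ?_, ?_, ?_⟩ h2
  · rw [S.dim_prod, S.dim_prod]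
    omega
  · exact hK.varieties.pull_gr _ _ _ hc
  · change K.push (prod.map f (𝟙 D)) (S.pull prod.fst c) = 1
    have h3 : K.push f c = 1 := hfc
    rw [hK.baseChange.push_fst, h3, map_one]

/-- `1`-cycles on `Y` -/
lemma voev_of_overCurves (hK : K.RStandard) {Y : 𝒱} (hY : PushForward.OverCurves S Y) : Voevodsky S Y 1 :=
  (of_prod hK (hY S.line S.dim_line)).1

/-- **products with an arbitrary factor** -/
theorem arbitrary (hK : K.RStandard) {Y : 𝒱} (hR : K.Regular Y) (hY : PushForward.OverCurves S Y) (X : 𝒱) :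
    Voevodsky S (X ⨯ Y) 1 ↔ Voevodsky S X 1 := by
  have h1 := one_cycles hK (splits_of_voevodsky hK hR fun C hC => voev_iso hK.isFunctor (swIso Y C) (hY C hC)) X
  exact ⟨fun h => (h1.mp h).1, fun h => h1.mpr ⟨h, voev_of_overCurves hK hY⟩⟩

/-- regular varieties: `Neutral` if and only if the conjecture holds over curves -/
theorem neutral_iff (hK : K.RStandard) (hP : PicardClasses S) {Y : 𝒱} (hR : K.Regular Y) :
    Neutral S Y ↔ PushForward.OverCurves S Y := by
  refine ⟨fun h C hC => voev_iso hK.isFunctor (swIso C Y) ((h C).mpr (curve hK hP hC)), fun h => arbitrary hK hR h⟩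

/-- finite-dimensional motives -/
theorem overCurves_of_even (hK : K.RStandard) (hO : K.CurvesOdd) (hP : PicardClasses S) {Y : 𝒱} (hR : K.Regular Y)
    (hY : Voevodsky S Y 1) (hE : K.EvenUpToCurves Y 2) : PushForward.OverCurves S Y := fun C hC =>
  voev_iso hK.isFunctor (swIso C Y) ((one_cycles hK (splits_of_even hK hO hR hE) C).mpr ⟨curve hK hP hC, hY⟩)

/-- products of neutral varieties -/
theorem neutral_prod (hK : K.RStandard) : ∀ (n : ℕ) (Y : Fin n → 𝒱), (∀ i, Neutral S (Y i)) →
    Neutral S (∏ᶜ Y) := by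
  intro n
  induction n with
  | zero =>
    intro Y _ X
    exact ⟨voev_iso hK.isFunctor (isoEmpty X Y).symm, voev_iso hK.isFunctor (isoEmpty X Y)⟩
  | succ n ih =>
    intro Y hY X
    have hF := hK.isFunctor
    rw [← hY 0 X, ← ih (fun i => Y i.succ) (fun i => hY i.succ) (X ⨯ Y 0)]
    let e : (X ⨯ Y 0) ⨯ (∏ᶜ fun i : Fin n => Y i.succ) ≅ X ⨯ ∏ᶜ Y :=
      prod.associator _ _ _ ≪≫ isoProd (isoSucc Y)
    exact ⟨voev_iso hF e.symm, voev_iso hF e⟩

end Pool.Agent.Helper88.SP
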