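import Mathlib
import Pool.Agent.Helper96.VN.Final

/-!
# Voevodsky's smash-nilpotence conjecture for one-dimensional cycles on products with an arbitrary factor

The definitions are in `Pool/Agent/Helper81/Smash/Defs.lean` (rational Chow rings, exterior powers),
`Pool/Agent/Helper88/SP/Defs.lean` (push-forwards), `Pool/Agent/Helper88/SQ/Defs.lean` and
`Pool/Agent/Helper96/VN/Defs.lean` (Jacobians).

Proof. Let `J` be the Jacobian of a curve `C` of genus `g` and let `D` be the class `Δ - p × C - C × p`. The class
`∑ D(xᵢ, yⱼ)` on `C ^ n × C ^ n`, for `i ∈ A`, `j ∈ A'`, is the inverse image of a divisor class on `J × J`, so its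
power of exponent `n = 2 g + 1` is zero; by inclusion-exclusion the permanent of the `D(xᵢ, yⱼ)` is zero. This is
Kimura's theorem `Sym ^ (2 g + 1) h¹(C) = 0`. In the same way homologically trivial divisors are smash-nilpotent.
By Gross and Schoen the conjecture for the 1-cycles on a product of curves follows. Now let `Y` be regular, let the
conjecture hold for the 1-cycles on `C × Y`, and let a curve in `X × Y` be the image of `C` under `(f, g)`. The graph
of `g` minus its two projections is homologically trivial, since `H¹(Y) = 0`, so it is smash-nilpotent; its image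
under `f × 1` is smash-nilpotent as well, whatever `X` is. Hence modulo smash-nilpotent cycles the curve is the sum of
its projections to `X` and to `Y`.
-/

set_option autoImplicit false

open CategoryTheory CategoryTheory.Limits

namespace Pool.Agent.Results.MP_bf8edd_ag.ArbitraryFactor

open Pool.Agent.Helper81.Smash Pool.Agent.Helper88.SP

universe u v w

/-- (1) Let `Y` be regular. Voevodsky's conjecture for the 1-cycles on `X × Y` is equivalent to Voevodsky's
conjecture for the 1-cycles on `X` for ALL varieties `X`, if and only if it holds for the 1-cycles on `Y × C` for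
all curves `C`. (2) This is the case if `Y` is dominated by a product of curves, or if the conjecture holds for the
1-cycles on `Y` and the motive of `Y` is evenly finite-dimensional up to (twisted) motives of curves. (3) Hence the
conjecture holds for the 1-cycles on all varieties dominated by `X × ∏ Y i`, where `X` is ANY surface and the `Y i`
are as in (1). -/
theorem result {𝒱 : Type u} [Category.{v} 𝒱] [HasFiniteProducts 𝒱] (S : HomCycles.{u, v, w} 𝒱)
    (K : PushForward S) (hK : K.Standard) (hJ : K.Jacobians) (hP : PicardClasses S) :
    (∀ Y : 𝒱, K.Regular Y → (Neutral S Y ↔ PushForward.OverCurves S Y)) ∧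
    (∀ Y : 𝒱, K.Regular Y → K.DominatedByCurves Y ∨ (Voevodsky S Y 1 ∧ K.EvenUpToCurves Y 2) → Neutral S Y) ∧
    (∀ (X : 𝒱) (n : ℕ) (Y : Fin n → 𝒱), S.dim X = 2 → (∀ i, Neutral S (Y i)) →
      ∀ Z : 𝒱, K.DominatedBy (X ⨯ ∏ᶜ Y) Z → Voevodsky S Z 1) := by
  have hO := curvesOdd hK.raw.varieties hJ
  refine ⟨fun Y hR => neutral_iff hK.raw hP hR, ?_, ?_⟩
  · rintro Y hR (h | ⟨h1, h2⟩)
    · exact (neutral_iff hK.raw hP hR).mpr (overCurves_of_dominated hK.raw hO hP h)
    · exact (neutral_iff hK.raw hP hR).mpr (overCurves_of_even hK.raw hO hP hR h1 h2)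
  · rintro X n Y hX hY Z ⟨f, hf⟩
    exact dominated hK.raw hf ((neutral_prod hK.raw n Y hY X).mpr (surface hK.raw.varieties hP hX))

end Pool.Agent.Results.MP_bf8edd_ag.ArbitraryFactor
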