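import Mathlib

/-!
# Polarization and permanents by inclusion-exclusion
-/

set_option autoImplicit false

open Finset Equiv

namespace Pool.Agent.Helper96.VN

variable {R : Type*} [CommRing R]

/-- `∑ (-1) ^ #T` over the sets `T` containing `I` -/
lemma sum_superset {n : ℕ} (I : Finset (Fin n)) :
    ∑ T ∈ (univ : Finset (Finset (Fin n))).filter (fun T => I ⊆ T), (-1 : R) ^ T.card =
      if I = univ then (-1) ^ n else 0 := by
  have h1 : ∑ T ∈ (univ : Finset (Finset (Fin n))).filter (fun T => I ⊆ T), (-1 : R) ^ T.card =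
      ∑ U ∈ Iᶜ.powerset, (-1 : R) ^ (I.card + U.card) := by
    refine sum_bij' (fun T _ => T \ I) (fun U _ => I ∪ U) ?_ ?_ ?_ ?_ ?_
    · intro T _
      rw [mem_powerset]
      intro x hx
      rw [mem_sdiff] at hx
      exact mem_compl.mpr hx.2
    · intro U _
      rw [mem_filter]
      exact ⟨mem_univ _, subset_union_left⟩
    · intro T hT
      exact union_sdiff_of_subset (mem_filter.mp hT).2
    · intro U hU
      rw [mem_powerset] at hU
      refine union_sdiff_cancel_left ?_
      exact (disjoint_compl_right (a := I)).mono_right hU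
    · intro T hT
      rw [card_sdiff_of_subset (mem_filter.mp hT).2, Nat.add_sub_cancel' (card_le_card (mem_filter.mp hT).2)]
  rw [h1]
  have h2 : ∑ U ∈ Iᶜ.powerset, (-1 : R) ^ (I.card + U.card) =
      (-1) ^ I.card * (((∑ U ∈ Iᶜ.powerset, (-1 : ℤ) ^ U.card : ℤ)) : R) := by
    rw [Int.cast_sum, mul_sum]
    refine sum_congr rfl fun U _ => ?_
    rw [pow_add]
    simp
  rw [h2, sum_powerset_neg_one_pow_card]
  by_cases hI : I = univ
  · subst hI
    simp
  · have : Iᶜ ≠ ∅ := by
      intro h
      exact hI (by rwa [compl_eq_empty_iff] at h)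
    rw [if_neg this, if_neg hI]
    simp

/-- if the sums of `F` over the maps with values in `T` are zero for all `T`, then so is the sum over the
permutations -/
lemma sum_perm {n : ℕ} (F : (Fin n → Fin n) → R)
    (h : ∀ T : Finset (Fin n), ∑ p ∈ Fintype.piFinset (fun _ : Fin n => T), F p = 0) :
    ∑ σ : Perm (Fin n), F σ = 0 := by
  classical
  have h1 : ∑ T : Finset (Fin n), (-1 : R) ^ T.card * ∑ p ∈ Fintype.piFinset (fun _ : Fin n => T), F p = 0 := by
    refine sum_eq_zero fun T _ => ?_
    rw [h T, mul_zero]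
  have h2 : ∀ T : Finset (Fin n), ∑ p ∈ Fintype.piFinset (fun _ : Fin n => T), F p =
      ∑ p : Fin n → Fin n, if univ.image p ⊆ T then F p else 0 := by
    intro T
    rw [← sum_filter]
    refine sum_congr ?_ fun _ _ => rfl
    ext p
    rw [Fintype.mem_piFinset, mem_filter, image_subset_iff]
    simp
  simp only [h2, mul_sum] at h1
  rw [sum_comm] at h1
  have h3 : ∀ p : Fin n → Fin n, ∑ T : Finset (Fin n), (-1 : R) ^ T.card * (if univ.image p ⊆ T then F p else 0) =
      if univ.image p = univ then (-1) ^ n * F p else 0 := by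
    intro p
    have h4 : ∀ T : Finset (Fin n), (-1 : R) ^ T.card * (if univ.image p ⊆ T then F p else 0) =
        (if univ.image p ⊆ T then (-1 : R) ^ T.card else 0) * F p := by
      intro T
      split_ifs <;> simp
    simp only [h4]
    rw [← sum_mul, ← sum_filter, sum_superset]
    split_ifs <;> simp
  simp only [h3] at h1
  rw [← sum_filter] at h1
  have h5 : ∑ p ∈ univ.filter (fun p : Fin n → Fin n => univ.image p = univ), (-1 : R) ^ n * F p =
      ∑ σ : Perm (Fin n), (-1) ^ n * F σ := by
    symm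
    refine sum_bij (fun σ _ => (σ : Fin n → Fin n)) ?_ ?_ ?_ ?_
    · intro σ _
      rw [mem_filter]
      exact ⟨mem_univ _, image_univ_of_surjective σ.surjective⟩
    · intro σ _ τ _ hστ
      exact DFunLike.coe_injective hστ
    · intro p hp
      have hs : Function.Surjective p := by
        intro y
        have : y ∈ univ.image p := by
          rw [(mem_filter.mp hp).2]
          exact mem_univ _
        obtain ⟨x, _, hx⟩ := mem_image.mp this
        exact ⟨x, hx⟩
      exact ⟨Equiv.ofBijective p ⟨Finite.injective_iff_surjective.mpr hs, hs⟩, mem_univ _, rfl⟩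
    · intro σ _
      rfl
  rw [h5, ← mul_sum] at h1
  have h6 : (-1 : R) ^ n * ((-1) ^ n * ∑ σ : Perm (Fin n), F σ) = 0 := by rw [h1, mul_zero]
  rwa [← mul_assoc, ← pow_add, ← two_mul, pow_mul, neg_one_sq, one_pow, one_mul] at h6

/-- polarization -/
lemma prod_eq_zero_of_pow [Algebra ℚ R] {n : ℕ} (a : Fin n → R)
    (h : ∀ T : Finset (Fin n), (∑ i ∈ T, a i) ^ n = 0) : ∏ i, a i = 0 := by
  have h1 := sum_perm (fun p => ∏ k, a (p k)) fun T => by
    have h0 : (∑ i ∈ T, a i) ^ n = ∏ _k : Fin n, ∑ i ∈ T, a i := by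
      rw [Finset.prod_const, Finset.card_univ, Fintype.card_fin]
    rw [← h T, h0, prod_univ_sum]
  have h2 : ∀ σ : Perm (Fin n), ∏ k, a (σ k) = ∏ k, a k := fun σ => Equiv.prod_comp σ a
  simp only [h2] at h1
  rw [sum_const, card_univ, Fintype.card_perm, Fintype.card_fin, nsmul_eq_mul] at h1
  have h3 : algebraMap ℚ R ((n.factorial : ℚ)⁻¹) * ((n.factorial : R) * ∏ k, a k) = 0 := by rw [h1, mul_zero]
  rwa [← mul_assoc, show (n.factorial : R) = algebraMap ℚ R (n.factorial : ℚ) from by simp, ← map_mul,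
    inv_mul_cancel₀ (by exact_mod_cast n.factorial_ne_zero), map_one, one_mul] at h3

/-- permanents -/
lemma permanent_eq_zero_of_pow [Algebra ℚ R] {n : ℕ} (M : Matrix (Fin n) (Fin n) R)
    (h : ∀ S T : Finset (Fin n), (∑ i ∈ S, ∑ j ∈ T, M i j) ^ n = 0) : M.permanent = 0 := by
  unfold Matrix.permanent
  refine sum_perm (fun p => ∏ i, M (p i) i) fun S => ?_
  have h1 : ∏ j, ∑ i ∈ S, M i j = 0 := by
    refine prod_eq_zero_of_pow _ fun T => ?_
    rw [sum_comm]
    exact h S T
  rw [← h1, prod_univ_sum]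

end Pool.Agent.Helper96.VN
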