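import Pool.Agent.Helper88.SQ.Defs

/-!
# Jacobians and Picard classes: divisor classes which are additive
-/

set_option autoImplicit false
set_option linter.unusedVariables false

open CategoryTheory CategoryTheory.Limits Pool.Agent.Helper81.Smash

namespace Pool.Agent.Helper88.SP

universe u v w

variable {𝒱 : Type u} [Category.{v} 𝒱] [HasFiniteProducts 𝒱] {S : HomCycles.{u, v, w} 𝒱}

/-- the sum of the points `a` and `b` of `J`, for the addition `m : J × J ⟶ J` -/
noncomputable def plus {J T : 𝒱} (m : J ⨯ J ⟶ J) (a b : T ⟶ J) : T ⟶ J := prod.lift a b ≫ m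

/-- the inverse image of `B` under `(a, b) : T ⟶ J × J'` -/
noncomputable def at₂ {J J' T : 𝒱} (B : S.A (J ⨯ J')) (a : T ⟶ J) (b : T ⟶ J') : S.A T := S.pull (prod.lift a b) B

/-- the class `α` on `P` is additive for the addition `m` -/
def Additive {P : 𝒱} (m : P ⨯ P ⟶ P) (α : S.A P) : Prop :=
  ∀ (T : 𝒱) (a b : T ⟶ P), S.pull (plus m a b) α = S.pull a α + S.pull b α

/-- the class `B` on `J × J` is additive in both variables for the addition `m` -/
def BiAdditive {J : 𝒱} (m : J ⨯ J ⟶ J) (B : S.A (J ⨯ J)) : Prop :=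
  ∀ (T : 𝒱) (a b c : T ⟶ J), at₂ B (plus m a b) c = at₂ B a c + at₂ B b c ∧
    at₂ B c (plus m a b) = at₂ B c a + at₂ B c b

namespace PushForward

variable (K : PushForward S)

/-- Jacobians (Weil, theorem of the square): for a curve `C` and a point `p` there are `J` with an addition
`m : J × J ⟶ J`, a morphism `u : C ⟶ J` and a divisor class `B` on `J × J`, additive in both variables, with inverse
image `Δ - p × C - C × p` on `C × C`. -/
def Jacobians : Prop :=
  ∀ (C : 𝒱) (p : ⊤_ 𝒱 ⟶ C), S.dim C = 1 → ∃ (J : 𝒱) (m : J ⨯ J ⟶ J) (u : C ⟶ J) (B : S.A (J ⨯ J)),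
    B ∈ S.gr (J ⨯ J) 1 ∧ BiAdditive m B ∧ S.pull (prod.map u u) B = K.oddPart p

/-- `Y` is dominated by a product of curves -/
def DominatedByCurves (Y : 𝒱) : Prop :=
  ∃ (n : ℕ) (C : Fin n → 𝒱), (∀ i, S.dim (C i) = 1) ∧ K.DominatedBy (∏ᶜ C) Y

end PushForward

/-- For ALL varieties `X`, Voevodsky's conjecture holds for the 1-cycles on `X × Y` if and only if it holds for
those on `X`. -/
def Neutral (S : HomCycles.{u, v, w} 𝒱) (Y : 𝒱) : Prop := ∀ X : 𝒱, Voevodsky S (X ⨯ Y) 1 ↔ Voevodsky S X 1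

/-- Albanese varieties (theorem of the square): a homologically trivial divisor class on `X` is the inverse image of
an additive divisor class on a variety `P` with an addition `m : P × P ⟶ P`. -/
def PicardClasses (S : HomCycles.{u, v, w} 𝒱) : Prop :=
  ∀ (X : 𝒱) (a : S.A X), a ∈ S.gr X 1 → IsHom a → ∃ (P : 𝒱) (m : P ⨯ P ⟶ P) (f : X ⟶ P) (α : S.A P),
    α ∈ S.gr P 1 ∧ Additive m α ∧ S.pull f α = a

end Pool.Agent.Helper88.SP
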