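import Pool.Agent.Helper96.VN.Defs
import Pool.Agent.Helper96.VN.Comb
import Pool.Agent.Helper88.SP.Raw

/-!
# Kimura's theorem for curves and the theorem of Voevodsky and Voisin for divisors
-/

set_option autoImplicit false
set_option linter.unusedVariables false

open CategoryTheory CategoryTheory.Limits Pool.Agent.Helper81.Smash Finset

namespace Pool.Agent.Helper88.SP

universe u v w

variable {𝒱 : Type u} [Category.{v} 𝒱] [HasFiniteProducts 𝒱] {S : HomCycles.{u, v, w} 𝒱}

/-- powers of divisor classes -/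
lemma pow_gr {X : 𝒱} {a : S.A X} (ha : a ∈ S.gr X 1) (n : ℕ) : a ^ n ∈ S.gr X n := by
  induction n with
  | zero =>
    rw [pow_zero]
    exact S.one_mem X
  | succ n ih =>
    rw [pow_succ]
    exact S.mul_mem ih ha

/-- the sum of a nonempty finite family of points, first variable -/
lemma exists_sum {J : 𝒱} (m : J ⨯ J ⟶ J) {T : 𝒱} {n : ℕ} (x : Fin n → (T ⟶ J)) (A : Finset (Fin n)) (hA : A.Nonempty) :
    ∃ X : T ⟶ J, (∀ α : S.A J, Additive m α → S.pull X α = ∑ i ∈ A, S.pull (x i) α) ∧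
      ∀ B : S.A (J ⨯ J), BiAdditive m B → ∀ c : T ⟶ J, at₂ B X c = ∑ i ∈ A, at₂ B (x i) c ∧
        at₂ B c X = ∑ i ∈ A, at₂ B c (x i) := by
  classical
  induction hA using Finset.Nonempty.cons_induction with
  | singleton a =>
    refine ⟨x a, ?_, ?_⟩
    · intro α _
      rw [sum_singleton]
    · intro B _ c
      rw [sum_singleton, sum_singleton]
      exact ⟨rfl, rfl⟩
  | cons a s h hs ih =>
    obtain ⟨X, h1, h2⟩ := ih
    refine ⟨plus m (x a) X, ?_, ?_⟩
    · intro α hα
      rw [hα, h1 α hα, sum_cons]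
    · intro B hB c
      obtain ⟨h3, h4⟩ := hB T (x a) X c
      rw [h3, h4, (h2 B hB c).1, (h2 B hB c).2, sum_cons, sum_cons]
      exact ⟨rfl, rfl⟩

variable {K : PushForward S}

/-- **Kimura's theorem for curves** -/
theorem curvesOdd (hV : K.RVarieties) (hJ : K.Jacobians) : K.CurvesOdd := by
  classical
  intro C p hC
  obtain ⟨J, m, u, B, hB1, hB, hu⟩ := hJ C p hC
  refine ⟨S.dim (J ⨯ J) + 1, ?_⟩
  set n := S.dim (J ⨯ J) + 1 with hn
  refine Pool.Agent.Helper96.VN.permanent_eq_zero_of_pow _ fun A A' => ?_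
  by_cases hA : A.Nonempty
  swap
  · rw [not_nonempty_iff_eq_empty.mp hA, sum_empty, hn, pow_succ, mul_zero]
  by_cases hA' : A'.Nonempty
  swap
  · rw [not_nonempty_iff_eq_empty.mp hA']
    simp [hn]
  let x : Fin n → (power C n ⨯ power C n ⟶ J) := fun k => prod.fst ≫ coord C k ≫ u
  let y : Fin n → (power C n ⨯ power C n ⟶ J) := fun k => prod.snd ≫ coord C k ≫ u
  obtain ⟨X, -, hX⟩ := exists_sum (S := S) m x A hA
  obtain ⟨Y, -, hY⟩ := exists_sum (S := S) m y A' hA'
  have h1 : ∀ k l, matrixOf (K.oddPart p) n k l = at₂ B (x k) (y l) := by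
    intro k l
    change S.pull _ _ = S.pull _ _
    rw [← hu, ← S.pull_comp]
    congr 2
    rw [prod.lift_map, Category.assoc, Category.assoc]
  have h2 : ∑ i ∈ A, ∑ j ∈ A', matrixOf (K.oddPart p) n i j = at₂ B X Y := by
    simp only [h1]
    rw [(hX B hB Y).1]
    exact sum_congr rfl fun i _ => ((hY B hB (x i)).2).symm
  rw [h2]
  unfold at₂
  rw [← map_pow, hV.gr_eq_zero n (B ^ n) (by omega) (pow_gr hB1 n), map_zero]

/-- **Voevodsky, Voisin**: homologically trivial divisors are smash-nilpotent. -/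
theorem divisor_nil (hV : K.RVarieties) (hP : PicardClasses S) {X : 𝒱} {a : S.A X} (ha : a ∈ S.gr X 1)
    (ha' : a ∈ S.hom X) : S.SmashNilpotent a := by
  classical
  obtain ⟨P, m, f, α, hα1, hα, rfl⟩ := hP X a ha ha'
  refine ⟨S.dim P + 1, by omega, ?_⟩
  set n := S.dim P + 1 with hn
  change ∏ k : Fin n, S.pull (coord X k) (S.pull f α) = 0
  refine Pool.Agent.Helper96.VN.prod_eq_zero_of_pow _ fun A => ?_
  by_cases hA : A.Nonempty
  swap
  · rw [not_nonempty_iff_eq_empty.mp hA, sum_empty, hn, pow_succ, mul_zero]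
  obtain ⟨Y, hY, -⟩ := exists_sum (S := S) m (fun k => coord X k ≫ f) A hA
  have h1 : ∑ i ∈ A, S.pull (coord X i) (S.pull f α) = S.pull Y α := by
    rw [hY α hα]
    exact sum_congr rfl fun i _ => (S.pull_comp _ _ _).symm
  rw [h1, ← map_pow, hV.gr_eq_zero n (α ^ n) (by omega) (pow_gr hα1 n), map_zero]

end Pool.Agent.Helper88.SP
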