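import Pool.Agent.RCH.LnAsm3
import Pool.Agent.RCH.LnSmooth

/-!
# Lines on hypersurface threefolds

Real Chow groups: the definitions are in `Pool/Agent/RCH/Defs.lean` (algebraic cycles on `X^N`,
rational equivalence, exterior powers, smash-nilpotence) and in `Pool/Agent/RCH/Ln.lean`
(`hypersurface`, `linesPoly`).

Let `p = (1 : 0 : 0 : 0 : 0)`, let `Y` be the surface `x_4 = 0` in `X`, let `x` and `y` be the two
points of `X × X` and put `N = x_0 y_4 - y_0 x_4`, `M = x_3 y_1 - y_3 x_1`.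

* Let `V'` be the threefold of the pairs `(x, y)` of points of `X` on a line through `p`, without the
  diagonal. The divisor of `N / (x_4 y_4)` on `V'` is `Z - (d - 1) ∑ a_k l_k × l_k -
  (d - 1) (p × Y + Y × p)`, where `Z` is the divisor of `∂F/∂x_0` on the diagonal.
* The divisor of `(∂F/∂x_0) / x_4 ^ (d - 1)` on the diagonal is `Z - (d - 1) Δ_Y`.
* The divisor of `M / (x_1 y_1)` on the threefold `x_1 y_2 = x_2 y_1` in `Y × Y` is
  `Δ_Y - L × L + (d - 1) ∑ a_k l_k × l_k - p × Y - Y × p`, where `L = ∑ a_k l_k`.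

Rows by helpers 9, 15, 16, 41, 64, 73, 88, 98 and 99.
-/

set_option autoImplicit false

open MvPolynomial

namespace Pool.Agent.Results.MP_bf8edd_ag.LinesOnThreefolds

open Pool.Agent.RCH

/-- The ideal of the line `x_1 = x_4 = 0`, `x_3 = β x_2` in the projective space of dimension four. -/
noncomputable def lineIdeal (β : ℂ) : Ideal (Coord (Fin 5) 1) :=
  Ideal.span {X (0, 1), X (0, 4), X (0, 3) - C β * X (0, 2)}

lemma line_eq (S : LnData) (k : Fin S.t) : (S.pl k).I = lineIdeal (S.b k) := by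
  apply le_antisymm
  · intro z hz
    rw [← Ideal.Quotient.eq_zero_iff_mem]
    have h0 : ∀ w ∈ ({X (0, 1), X (0, 4), X (0, 3) - C (S.b k) * X (0, 2)} :
        Set (Coord (Fin 5) 1)), Ideal.Quotient.mk (lineIdeal (S.b k)) w = 0 := fun w hw =>
      Ideal.Quotient.eq_zero_iff_mem.2 (Ideal.subset_span hw)
    refine S.kill_pl (Ideal.Quotient.mk (lineIdeal (S.b k))) k (h0 _ (by simp)) ?_
      (h0 _ (by simp)) hz
    have h3 := h0 (X (0, 3) - C (S.b k) * X (0, 2)) (by simp)
    rw [map_sub, map_mul] at h3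
    exact sub_eq_zero.1 h3
  · refine Ideal.span_le.2 ?_
    intro w hw
    simp only [Set.mem_insert_iff, Set.mem_singleton_iff] at hw
    rcases hw with rfl | rfl | rfl
    · exact S.kr_X1_mem_pl k
    · exact S.kr_X4_mem_pl k
    · exact S.kr_lam_mem_pl k

/-- Let `n ≥ 2`.

(1) Let `b_1, …, b_t` be different complex numbers, let `a_1, …, a_t ≥ 1` be integers of sum `n + 1`,
let `g` and `P` be forms of degree `n` in three and in five variables with `g(0, 1, b_k) ≠ 0` for all
`k` and `P(1, 0, 0, 0, 0) ≠ 0`, and let `X` be the hypersurface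
`x_0 x_1 ^ n + ∏ (x_3 - b_k x_2) ^ (a_k) + x_1 g(x_1, x_2, x_3) + x_4 P(x_0, …, x_4) = 0` of degree
`n + 1` in the projective space of dimension four. Let `l_k` be the line `x_1 = x_4 = 0`,
`x_3 = b_k x_2` on `X`. Then `n ∑_{j < k} a_j a_k (l_j - l_k) × (l_j - l_k)` is rationally equivalent
to zero on `X × X`. If `t = 2`, then `l_1 - l_2` is smash-nilpotent.

(2) The hypersurface
`x_0 x_1 ^ n + (x_3 - x_2) (x_3 + x_2) ^ n + x_1 x_2 ^ n + x_4 (x_0 ^ n + x_4 ^ n) = 0`, one of
those in (1), with `t = 2`, is smooth. -/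
theorem result (n : ℕ) (hn : 2 ≤ n) :
    (∀ (t : ℕ) (b : Fin t → ℂ) (a : Fin t → ℕ) (g : MvPolynomial (Fin 3) ℂ)
      (P : MvPolynomial (Fin 5) ℂ), Function.Injective b → (∀ k, 1 ≤ a k) →
      ∑ k, a k = n + 1 → g.IsHomogeneous n → (∀ k, eval ![0, 1, b k] g ≠ 0) →
      P.IsHomogeneous n → eval ![1, 0, 0, 0, 0] P ≠ 0 →
      ∃ l : Fin t → Pt (hypersurface (linesPoly n b a g P)) 1,
        (∀ k, (l k).I = lineIdeal (b k)) ∧ Function.Injective l ∧
        n • ∑ j, ∑ k ∈ Finset.univ.filter (fun k => j < k),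
          (a j * a k) • extPow (hypersurface (linesPoly n b a g P))
            (Finsupp.single (l j) 1 - Finsupp.single (l k) 1) 2 ∈
              RatZero (hypersurface (linesPoly n b a g P)) 2 ∧
        (t = 2 → ∀ j k, SmashNilpotent (hypersurface (linesPoly n b a g P))
          (Finsupp.single (l j) 1 - Finsupp.single (l k) 1))) ∧
    (∀ v : Fin 5 → ℂ, v ≠ 0 → ∃ j,
      eval v (pderiv j (linesPoly n ![1, -1] ![1, n] (X 1 ^ n) (X 0 ^ n + X 4 ^ n))) ≠ 0) := by
  refine ⟨fun t b a g P hb ha hsum hg hgb hP hPc => ?_, fun v hv => ?_⟩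
  · obtain ⟨m, rfl⟩ : ∃ m, n = m + 2 := ⟨n - 2, by omega⟩
    set S : LnData := ⟨m, t, b, a, hb, ha, hsum, g, hg, hgb, P, hP, hPc⟩ with hS
    exact ⟨S.pl, fun k => line_eq S k, S.pl_injective, S.rel_squares, fun ht j k => S.smash ht j k⟩
  · by_contra h
    push Not at h
    exact hv (linesPoly_smooth n hn v h)

end Pool.Agent.Results.MP_bf8edd_ag.LinesOnThreefolds
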