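import Mathlib
import Pool.Agent.Helper96.VN.Final

/-!
# Voevodsky's smash-nilpotence conjecture for one-dimensional cycles on products

The definitions are in `Pool/Agent/Helper81/Smash/Defs.lean` (rational Chow rings, exterior powers),
`Pool/Agent/Helper88/SP/Defs.lean` (push-forwards), `Pool/Agent/Helper88/SQ/Defs.lean` (Albanese curves, surfaces)
and `Pool/Agent/Helper96/VN/Defs.lean` (Jacobians, Picard classes).

Proof. A one-dimensional cycle on a product is a sum of images of small diagonals of curves `C`. The modified small
diagonal (Gross, Schoen) of `C ^ 3` is in `h¹(C) ⊗ h¹(C) ⊗ h¹(C)`, which is odd, so it is smash-nilpotent; hence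
modulo smash-nilpotent cycles a curve in a product is the sum of its projections to the products of two factors (up
to its projections to the factors). The curves in a variety `X` are on surfaces `A` with `H₁(A)` in `H₁(X)`, so
everything can be reduced to products of two surfaces. A homologically trivial cycle on `Y × X` is treated by a
decomposition of the diagonal of `X`: the even part of `h(X)` contributes smash-nilpotent cycles, whatever `Y` is
(Kimura), and the other part factors through curves. Kimura's theorem for curves and the smash-nilpotence of the
homologically trivial divisors are derived from Jacobians and Picard classes in `Pool/Agent/Helper96/VN`.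
-/

set_option autoImplicit false

open CategoryTheory CategoryTheory.Limits

namespace Pool.Agent.Results.MP_bf8edd_ag.OneCyclesOnProducts

open Pool.Agent.Helper81.Smash Pool.Agent.Helper88.SP

universe u v w

/-- (1) Voevodsky's conjecture holds for the 1-cycles on a product of varieties `X i` if and only if it holds for the
1-cycles on all products of two of them. (2) The following are equivalent: Voevodsky's conjecture holds for the
1-cycles on a product if and only if it holds for the 1-cycles on all factors (`Multiplicative`); it holds for the
1-cycles on `A × C` for all surfaces `A` and curves `C`; for all surfaces `A` and an Albanese curve of `A` the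
residues of all morphisms from curves to `A` are smash-nilpotent.
(3) Voevodsky's conjecture holds for the 1-cycles on all varieties `Z` dominated by `Y × ∏ X i`, where the `X i`
satisfy `K.Transferable` (evenly finite-dimensional up to motives of curves, or with an Albanese curve and
Voevodsky's conjecture for the 1-cycles on `X i × C` for all curves `C`), and `Y` is ANY variety with Voevodsky's
conjecture for the 1-cycles on `Y × C` for all curves `C`. -/
theorem result {𝒱 : Type u} [Category.{v} 𝒱] [HasFiniteProducts 𝒱] (S : HomCycles.{u, v, w} 𝒱)
    (K : PushForward S) (hK : K.Standard) (hJ : K.Jacobians) :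
    (∀ (n : ℕ) (X : Fin n → 𝒱), 2 ≤ n →
      (Voevodsky S (∏ᶜ X) 1 ↔ ∀ i j, i < j → Voevodsky S (X i ⨯ X j) 1)) ∧
    (PicardClasses S → K.Lefschetz → K.Albanese →
      (PushForward.Multiplicative S ↔ ∀ A : 𝒱, S.dim A = 2 → PushForward.OverCurves S A) ∧
      (PushForward.Multiplicative S ↔ ∀ A : 𝒱, S.dim A = 2 → K.ResiduesNilpotent A)) ∧
    (PicardClasses S → ∀ (n : ℕ) (X : Fin n → 𝒱), (∀ i, K.Transferable (X i)) →
      ∀ Y : 𝒱, PushForward.OverCurves S Y → ∀ Z : 𝒱, K.DominatedBy (Y ⨯ ∏ᶜ X) Z → Voevodsky S Z 1) := by
  have hV := hK.raw.varieties
  have hO := curvesOdd hV hJ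
  exact ⟨fun _ X hn => pairs hK.raw hO hn X,
    fun hP hL hAlb => multiplicative_iff hK.raw hO (fun _ => surface hV hP) hL hAlb,
    fun hP _ X hX _ hY _ hZ => products hK.raw hO (fun _ => surface hV hP) X hX hY hZ⟩

end Pool.Agent.Results.MP_bf8edd_ag.OneCyclesOnProducts
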