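import Mathlib
import Pool.Agent.Helper5.Zq.Main

/-!
# Voevodsky's smash-nilpotence conjecture: reduction to divisors over the rational numbers

The definitions are in `Pool/Agent/Helper5/Zq/Defs.lean` (cycles over a subfield `k` of the complex numbers),
`Pool/Agent/Helper81/Smash/Defs.lean` (rational Chow rings, exterior powers) and
`Pool/Agent/Helper53/Smash/Defs.lean` (blow-ups of projective spaces, rational varieties).

Proof. Let `a` be a homologically trivial cycle on a complex variety `X`. Spread it out to a cycle `α` on a smooth
projective family over a smooth affine base `B` over `k`, of dimension `n`. The class of `α` is in the first step of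
the Leray filtration, which is multiplicative, and the step `n + 1` is zero by Artin's theorem. So the exterior
power `β = α ×_B ⋯ ×_B α` with `n + 1` factors is homologically trivial on the open total space `U` of the fibre
power of the family. Given the standard conjecture D over `k`, Deligne's theory of weights and the duality of cycles
modulo numerical equivalence show that `β` is the restriction to `U` of a numerically trivial cycle `x` on
a smooth compactification of `U`. If the exterior power `x × ⋯ × x` with `m` factors is zero, then restrict it to the
small diagonal of `B` in `B ^ m`: the exterior power of `α` over `B` with `m (n + 1)` factors is zero, and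
so is that of `a`. Finally `x` is replaced by a power of a divisor on a rational variety over `k`.
Conversely Voevodsky's conjecture in its numerical form implies D.
-/

set_option autoImplicit false

open CategoryTheory CategoryTheory.Limits

namespace Pool.Agent.Results.MP_bf8edd_ag.RationalNumbers

open Pool.Agent.Helper5.Zq

universe u v w

/-- Let `k` be a subfield of the complex numbers, such as the field of the rational numbers.
(1) Assume the standard conjecture D over `k`. Let `a` be a homologically trivial cycle of positive codimension on
a complex variety, defined over an extension of `k` of transcendence degree `n`. Then there are a rational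
variety `Y` over `k` and a divisor over `k` on `Y` with a numerically trivial middle power `b` such that
`b ^ (× m) = 0` implies `a ^ (× m (n + 1)) = 0` for all `m`.
(2) All the numerically trivial middle powers `b` of divisors over `k` on rational varieties over `k` are
smash-nilpotent if and only if Voevodsky's conjecture holds over the complex numbers and the standard
conjecture D holds over `k`. -/
theorem result {𝒱 : Type u} [Category.{v} 𝒱] [HasFiniteProducts 𝒱] {𝒰 : Type u} [Category.{v} 𝒰]
    {𝒲 : Type u} [Category.{v} 𝒲] [HasFiniteProducts 𝒲] (Θ : CyclesOver.{u, v, w} 𝒱 𝒰 𝒲)
    (hΘ : Θ.Standard) :
    (Θ.R.StandardD → ∀ (X : 𝒲) (p n : ℕ) (a : Θ.C.A X), 1 ≤ p → Θ.C.IsHom a →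
      DefinedOver Θ.O Θ.C a p n → Θ.ComesFromDivisor a n) ∧
    (Θ.VoevodskyDivisors ↔ Θ.C.Voevodsky ∧ Θ.R.StandardD) :=
  ⟨fun hD _ _ _ _ hp ha h => exists_rational hΘ hD hp ha h, main hΘ⟩

end Pool.Agent.Results.MP_bf8edd_ag.RationalNumbers
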